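import Pool.Agent.Helper880_HC.Ff
import Pool.Agent.Helper880_R3.Res

/-!
# The tensor powers of block matrices, and the subtorsor of a tensor
-/

set_option autoImplicit false
set_option linter.unusedSectionVars false
set_option linter.unusedVariables false

open Matrix Module

namespace Pool.Agent.Helper880_DB

open Pool.Agent.Helper880_R3 (Ix Tot Tot_mul Tot_inj Tot_unit ib ib_apply)
open Pool.Agent.Helper880_HC

variable {n N r₀ d₀ d : ℕ}

/-- the tensor power of a block matrix -/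
def pw (τ : Fin d → Fin N) (x : Matrix (Fin r₀) (Fin r₀) ℂ) (X : Fin N → Matrix (Fin n) (Fin n) ℂ)
    (f : Ten ℂ d₀ d r₀ n) : Ten ℂ d₀ d r₀ n := fun u v =>
  ∑ u', ∑ v', (∏ k, x (u k) (u' k)) * (∏ l, X (τ l) (v l) (v' l)) * f u' v'

theorem pw_smul (τ : Fin d → Fin N) (x : Matrix (Fin r₀) (Fin r₀) ℂ) (X : Fin N → Matrix (Fin n) (Fin n) ℂ) (c : ℂ)
    (f : Ten ℂ d₀ d r₀ n) : pw τ x X (c • f) = c • pw τ x X f := by
  funext u v
  show ∑ u', ∑ v', (∏ k, x (u k) (u' k)) * (∏ l, X (τ l) (v l) (v' l)) * (c * f u' v') = c * _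
  unfold pw
  rw [Finset.mul_sum]
  refine Finset.sum_congr rfl fun u' _ => ?_
  rw [Finset.mul_sum]
  exact Finset.sum_congr rfl fun v' _ => by ring

theorem prod_one {m k : ℕ} (u u' : Fin m → Fin k) : (∏ i, (1 : Matrix (Fin k) (Fin k) ℂ) (u i) (u' i)) =
    if u' = u then 1 else 0 := by
  split_ifs with h
  · subst h
    exact Finset.prod_eq_one fun i _ => Matrix.one_apply_eq _
  · obtain ⟨i, hi⟩ := Function.ne_iff.1 h
    exact Finset.prod_eq_zero (Finset.mem_univ i) (Matrix.one_apply_ne hi.symm)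

theorem pw_one (τ : Fin d → Fin N) (f : Ten ℂ d₀ d r₀ n) : pw τ 1 (fun _ => 1) f = f := by
  funext u v
  unfold pw
  simp only [prod_one, ite_mul, one_mul, zero_mul]
  have h1 : ∀ u', (∑ v', if u' = u then (if v' = v then f u' v' else 0) else 0) = if u' = u then f u' v else 0 := by
    intro u'
    split_ifs with h
    · rw [Finset.sum_ite_eq' Finset.univ v, if_pos (Finset.mem_univ _)]
    · exact Finset.sum_const_zero
  simp only [h1, Finset.sum_ite_eq', Finset.mem_univ, if_true]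

theorem prod_mul' {m k : ℕ} (A B : Fin m → Matrix (Fin k) (Fin k) ℂ) (u u' : Fin m → Fin k) :
    (∏ i, (A i * B i) (u i) (u' i)) = ∑ w : Fin m → Fin k, (∏ i, A i (u i) (w i)) * ∏ i, B i (w i) (u' i) := by
  simp only [Matrix.mul_apply]
  rw [Finset.prod_univ_sum, Fintype.piFinset_univ]
  exact Finset.sum_congr rfl fun w _ => Finset.prod_mul_distrib

theorem pw_mul (τ : Fin d → Fin N) (x y : Matrix (Fin r₀) (Fin r₀) ℂ) (X Y : Fin N → Matrix (Fin n) (Fin n) ℂ)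
    (f : Ten ℂ d₀ d r₀ n) : pw τ (x * y) (fun j => X j * Y j) f = pw τ x X (pw τ y Y f) := by
  funext u v
  unfold pw
  have h1 : ∀ u' v', (∏ k, (x * y) (u k) (u' k)) * (∏ l, (X (τ l) * Y (τ l)) (v l) (v' l)) * f u' v' =
      ∑ u'' : Fin d₀ → Fin r₀, ∑ v'' : Fin d → Fin n, (∏ k, x (u k) (u'' k)) * (∏ l, X (τ l) (v l) (v'' l)) *
        ((∏ k, y (u'' k) (u' k)) * (∏ l, Y (τ l) (v'' l) (v' l)) * f u' v') := by
    intro u' v'
    rw [prod_mul' (fun _ => x) (fun _ => y), prod_mul' (fun l => X (τ l)) (fun l => Y (τ l)), Finset.sum_mul_sum,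
      Finset.sum_mul]
    refine Finset.sum_congr rfl fun u'' _ => ?_
    rw [Finset.sum_mul]
    exact Finset.sum_congr rfl fun v'' _ => by ring
  simp only [h1]
  rw [Finset.sum_congr rfl fun u' _ => Finset.sum_comm (s := (Finset.univ : Finset (Fin d → Fin n)))]
  rw [Finset.sum_comm (s := (Finset.univ : Finset (Fin d₀ → Fin r₀)))]
  refine Finset.sum_congr rfl fun u'' _ => ?_
  rw [Finset.sum_congr rfl fun u' _ => Finset.sum_comm (s := (Finset.univ : Finset (Fin d → Fin n)))]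
  rw [Finset.sum_comm (s := (Finset.univ : Finset (Fin d₀ → Fin r₀)))]
  refine Finset.sum_congr rfl fun v'' _ => ?_
  rw [Finset.mul_sum]
  refine Finset.sum_congr rfl fun u' _ => ?_
  rw [Finset.mul_sum]

/-- the tensor is moved by a scalar -/
def Line (τ : Fin d → Fin N) (κ f : Ten ℂ d₀ d r₀ n) (x : Matrix (Fin r₀) (Fin r₀) ℂ)
    (X : Fin N → Matrix (Fin n) (Fin n) ℂ) : Prop := ∃ a : ℂ, pw τ x X κ = a • f

/-- the set of block matrices which map `κ` to a multiple of `f` -/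
def TT (τ : Fin d → Fin N) (κ f : Ten ℂ d₀ d r₀ n) : Set (Matrix (Ix r₀ n N) (Ix r₀ n N) ℂ) :=
  {y | ∃ (x : Matrix (Fin r₀) (Fin r₀) ℂ) (X : Fin N → Matrix (Fin n) (Fin n) ℂ), y = Tot x X ∧ IsUnit y ∧ Line τ κ f x X}

theorem Tot_inv {x : Matrix (Fin r₀) (Fin r₀) ℂ} {X : Fin N → Matrix (Fin n) (Fin n) ℂ} (h : IsUnit (Tot x X)) :
    (Tot x X)⁻¹ = Tot x⁻¹ fun j => (X j)⁻¹ := by
  obtain ⟨h1, h2⟩ := Tot_unit h
  refine Matrix.inv_eq_right_inv ?_
  rw [Tot_mul, mul_nonsing_inv _ ((Matrix.isUnit_iff_isUnit_det _).1 h1), ← Pool.Agent.Helper880_R3.Tot_one]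
  congr 1
  funext j
  exact mul_nonsing_inv _ ((Matrix.isUnit_iff_isUnit_det _).1 (h2 j))

theorem TT_closed {τ : Fin d → Fin N} {κ f : Ten ℂ d₀ d r₀ n} (hf : f ≠ 0) (hκ : κ ≠ 0) :
    ∀ x ∈ TT τ κ f, ∀ y ∈ TT τ κ f, ∀ z ∈ TT τ κ f, x * y⁻¹ * z ∈ TT τ κ f := by
  rintro _ ⟨x, X, rfl, hx, a, ha⟩ _ ⟨y, Y, rfl, hy, b, hb⟩ _ ⟨z, Z, rfl, hz, c, hc⟩
  have hyi : IsUnit (Tot y Y)⁻¹ := (Matrix.isUnit_nonsing_inv_iff).2 hy
  obtain ⟨h1, h2⟩ := Tot_unit hy
  have hinv : ∀ g : Ten ℂ d₀ d r₀ n, pw τ y⁻¹ (fun j => (Y j)⁻¹) (pw τ y Y g) = g := by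
    intro g
    rw [← pw_mul, nonsing_inv_mul _ ((Matrix.isUnit_iff_isUnit_det _).1 h1)]
    have h3 : (fun j => (Y j)⁻¹ * Y j) = fun _ => (1 : Matrix (Fin n) (Fin n) ℂ) := by
      funext j
      exact nonsing_inv_mul _ ((Matrix.isUnit_iff_isUnit_det _).1 (h2 j))
    rw [h3, pw_one]
  have hb0 : b ≠ 0 := by
    intro h
    rw [h, zero_smul] at hb
    have h3 := hinv κ
    rw [hb, ← zero_smul ℂ (0 : Ten ℂ d₀ d r₀ n), pw_smul, zero_smul] at h3
    exact hκ h3.symm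
  refine ⟨x * y⁻¹ * z, fun j => X j * (Y j)⁻¹ * Z j, ?_, (hx.mul hyi).mul hz, a * (b⁻¹ * c), ?_⟩
  · rw [Tot_inv hy, Tot_mul, Tot_mul]
  · have h3 := hinv κ
    rw [hb, pw_smul] at h3
    have h4 : pw τ y⁻¹ (fun j => (Y j)⁻¹) f = b⁻¹ • κ := by
      rw [← h3, smul_smul, inv_mul_cancel₀ hb0, one_smul]
    rw [pw_mul, pw_mul, hc, pw_smul, h4, pw_smul, pw_smul, ha, smul_smul, smul_smul]
    congr 1
    ring

section poly
variable {K : Subfield ℂ}

/-- the polynomial of one coordinate of the tensor power -/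
noncomputable def pol (τ : Fin d → Fin N) (k : (Fin d₀ → Fin r₀) → (Fin d → Fin n) → K) (u : Fin d₀ → Fin r₀)
    (v : Fin d → Fin n) : MvPolynomial (Ix r₀ n N × Ix r₀ n N) K :=
  ∑ u', ∑ v', (∏ i, MvPolynomial.X (Sum.inl (u i), Sum.inl (u' i))) *
    (∏ l, MvPolynomial.X (Sum.inr (v l, τ l), Sum.inr (v' l, τ l))) * MvPolynomial.C (k u' v')

theorem eval_pol (τ : Fin d → Fin N) (k : (Fin d₀ → Fin r₀) → (Fin d → Fin n) → K) (u : Fin d₀ → Fin r₀)
    (v : Fin d → Fin n) (x : Matrix (Fin r₀) (Fin r₀) ℂ) (X : Fin N → Matrix (Fin n) (Fin n) ℂ) :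
    MvPolynomial.eval (fun b => Tot x X b.1 b.2) (MvPolynomial.map (algebraMap K ℂ) (pol τ k u v)) =
      pw τ x X (fun u v => (k u v : ℂ)) u v := by
  unfold pol pw
  simp only [map_sum, map_mul, map_prod, MvPolynomial.map_X, MvPolynomial.map_C, MvPolynomial.eval_X,
    MvPolynomial.eval_C]
  refine Finset.sum_congr rfl fun u' _ => Finset.sum_congr rfl fun v' _ => ?_
  congr 1
  congr 1
  refine Finset.prod_congr rfl fun l _ => ?_
  show Matrix.blockDiagonal X (v l, τ l) (v' l, τ l) = _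
  rw [Matrix.blockDiagonal_apply, if_pos rfl]

/-- the first diagonal block -/
def b0 (y : Matrix (Ix r₀ n N) (Ix r₀ n N) ℂ) : Matrix (Fin r₀) (Fin r₀) ℂ :=
  Matrix.of fun a b => y (Sum.inl a) (Sum.inl b)

/-- the other diagonal blocks -/
def b1 (y : Matrix (Ix r₀ n N) (Ix r₀ n N) ℂ) (j : Fin N) : Matrix (Fin n) (Fin n) ℂ :=
  Matrix.of fun a b => y (Sum.inr (a, j)) (Sum.inr (b, j))

/-- the diagonal blocks -/
theorem Tot_of {y : Matrix (Ix r₀ n N) (Ix r₀ n N) ℂ} (h1 : ∀ a b, y (Sum.inl a) (Sum.inr b) = 0)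
    (h2 : ∀ a b, y (Sum.inr a) (Sum.inl b) = 0) (h3 : ∀ a b : Fin n × Fin N, a.2 ≠ b.2 → y (Sum.inr a) (Sum.inr b) = 0) :
    y = Tot (b0 y) (b1 y) := by
  ext (a | ⟨a, i⟩) (b | ⟨b, j⟩)
  · rfl
  · exact h1 _ _
  · exact h2 _ _
  · show _ = Matrix.blockDiagonal (b1 y) (a, i) (b, j)
    rw [Matrix.blockDiagonal_apply]
    split_ifs with h
    · subst h
      rfl
    · exact h3 _ _ h

/-- **the block matrices which map `κ` to a multiple of the rational tensor `f` form a `K`-subtorsor** -/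
theorem TT_sub {τ : Fin d → Fin N} {k : (Fin d₀ → Fin r₀) → (Fin d → Fin n) → K} {f : Ten ℚ d₀ d r₀ n} (hf : f ≠ 0)
    (hk : k ≠ 0) : Pool.Agent.Y123.ST.SubT K (TT (N := N) τ (fun u v => (k u v : ℂ)) (tC f)) := by
  obtain ⟨u₀, v₀, h₀⟩ : ∃ u v, f u v ≠ 0 := by
    by_contra hcon
    push Not at hcon
    exact hf (funext fun u => funext fun v => hcon u v)
  have hf' : tC f ≠ 0 := by
    intro h
    have h1 := congrFun (congrFun h u₀) v₀
    exact h₀ (Rat.cast_injective (α := ℂ) (h1.trans Rat.cast_zero.symm))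
  have hκ : (fun u v => (k u v : ℂ) : Ten ℂ d₀ d r₀ n) ≠ 0 := by
    intro h
    refine hk (funext fun u => funext fun v => ?_)
    exact Subtype.ext (congrFun (congrFun h u) v)
  refine ⟨TT_closed hf' hκ, ((Set.range fun p : Fin r₀ × (Fin n × Fin N) =>
    (MvPolynomial.X (Sum.inl p.1, Sum.inr p.2) : MvPolynomial (Ix r₀ n N × Ix r₀ n N) K)) ∪
    (Set.range fun p : Fin r₀ × (Fin n × Fin N) => MvPolynomial.X (Sum.inr p.2, Sum.inl p.1))) ∪
    ({q | ∃ a b : Fin n × Fin N, a.2 ≠ b.2 ∧ q = MvPolynomial.X (Sum.inr a, Sum.inr b)} ∪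
    {q | ∃ u v, q = pol τ k u v * MvPolynomial.C (f u₀ v₀ : K) - pol τ k u₀ v₀ * MvPolynomial.C (f u v : K)}), fun y => ?_⟩
  have hKQ : ∀ q : ℚ, (algebraMap K ℂ) ((q : ℚ) : K) = (q : ℂ) := fun q => map_ratCast _ q
  constructor
  · rintro ⟨x, X, rfl, hu, a, ha⟩
    refine ⟨hu, ?_⟩
    rintro p ((⟨q, rfl⟩ | ⟨q, rfl⟩) | (⟨a', b', hab, rfl⟩ | ⟨u, v, rfl⟩))
    · simp only [MvPolynomial.map_X, MvPolynomial.eval_X]
      rfl
    · simp only [MvPolynomial.map_X, MvPolynomial.eval_X]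
      rfl
    · rw [MvPolynomial.map_X, MvPolynomial.eval_X]
      obtain ⟨a', i⟩ := a'
      obtain ⟨b', j⟩ := b'
      show Matrix.blockDiagonal X (a', i) (b', j) = 0
      rw [Matrix.blockDiagonal_apply, if_neg hab]
    · rw [map_sub, map_sub, map_mul, map_mul, map_mul, map_mul, eval_pol, eval_pol, MvPolynomial.map_C,
        MvPolynomial.map_C, MvPolynomial.eval_C, MvPolynomial.eval_C, hKQ, hKQ, ha]
      show a * (f u v : ℂ) * (f u₀ v₀ : ℂ) - a * (f u₀ v₀ : ℂ) * (f u v : ℂ) = 0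
      ring
  · rintro ⟨hu, hI⟩
    have he : y = Tot (b0 y) (b1 y) := by
      refine Tot_of (fun a b => ?_) (fun a b => ?_) fun a b hab => ?_
      · have h1 := hI _ (Or.inl (Or.inl ⟨(a, b), rfl⟩))
        simpa only [MvPolynomial.map_X, MvPolynomial.eval_X] using h1
      · have h1 := hI _ (Or.inl (Or.inr ⟨(b, a), rfl⟩))
        simpa only [MvPolynomial.map_X, MvPolynomial.eval_X] using h1
      · have h1 := hI _ (Or.inr (Or.inl ⟨a, b, hab, rfl⟩))
        simpa only [MvPolynomial.map_X, MvPolynomial.eval_X] using h1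
    set x := b0 y with hx
    set X := b1 y with hX
    refine ⟨x, X, he, hu, pw τ x X (fun u v => (k u v : ℂ)) u₀ v₀ / (f u₀ v₀ : ℂ), ?_⟩
    funext u v
    have h1 := hI _ (Or.inr (Or.inr ⟨u, v, rfl⟩))
    clear_value x X
    subst he
    rw [map_sub, map_sub, map_mul, map_mul, map_mul, map_mul, eval_pol, eval_pol, MvPolynomial.map_C,
        MvPolynomial.map_C, MvPolynomial.eval_C, MvPolynomial.eval_C, hKQ, hKQ] at h1
    have h2 : (f u₀ v₀ : ℂ) ≠ 0 := by exact_mod_cast h₀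
    show _ = _ / (f u₀ v₀ : ℂ) * (f u v : ℂ)
    rw [div_mul_eq_mul_div, eq_div_iff h2]
    linear_combination h1

end poly

section der

theorem prod_HD {m : ℕ} {F : Fin m → ℂ → ℂ} {F' : Fin m → ℂ} (h : ∀ l, HasDerivAt (F l) (F' l) 0) :
    HasDerivAt (fun s => ∏ l, F l s) (∑ l, (∏ i ∈ Finset.univ.erase l, F i 0) * F' l) 0 := by
  have h1 := HasDerivAt.fun_finsetProd (u := Finset.univ) fun l _ => h l
  simpa only [smul_eq_mul] using h1

theorem pw_HD (τ : Fin d → Fin N) (Y : Fin N → Matrix (Fin n) (Fin n) ℂ) (f : Ten ℂ d₀ d r₀ n) (u : Fin d₀ → Fin r₀)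
    (v : Fin d → Fin n) : HasDerivAt (fun s : ℂ => pw τ 1 (fun j => NormedSpace.exp (s • Y j)) f u v)
      (act τ 0 Y f u v) 0 := by
  have h1 : ∀ v' : Fin d → Fin n, HasDerivAt (fun s : ℂ => ∏ l, NormedSpace.exp (s • Y (τ l)) (v l) (v' l))
      (∑ l, (∏ i ∈ Finset.univ.erase l, (1 : Matrix (Fin n) (Fin n) ℂ) (v i) (v' i)) * Y (τ l) (v l) (v' l)) 0 := by
    intro v'
    have h2 := prod_HD (F := fun l s => NormedSpace.exp (s • Y (τ l)) (v l) (v' l))
      (F' := fun l => Y (τ l) (v l) (v' l)) fun l => by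
        have h3 := Pool.Agent.Helper880_R3.exp_HD (Y (τ l)) 0 (v l) (v' l)
        rw [zero_smul, Pool.Agent.Helper880_R3.exp_zero', Matrix.mul_one] at h3
        exact h3
    simp only [zero_smul, Pool.Agent.Helper880_R3.exp_zero'] at h2
    exact h2
  have h2 : HasDerivAt (fun s : ℂ => ∑ u', ∑ v', (∏ k, (1 : Matrix (Fin r₀) (Fin r₀) ℂ) (u k) (u' k)) *
      (∏ l, NormedSpace.exp (s • Y (τ l)) (v l) (v' l)) * f u' v')
      (∑ u', ∑ v', (∏ k, (1 : Matrix (Fin r₀) (Fin r₀) ℂ) (u k) (u' k)) *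
      (∑ l, (∏ i ∈ Finset.univ.erase l, (1 : Matrix (Fin n) (Fin n) ℂ) (v i) (v' i)) * Y (τ l) (v l) (v' l)) * f u' v') 0 :=
    HasDerivAt.fun_sum fun u' _ => HasDerivAt.fun_sum fun v' _ => ((h1 v').const_mul _).mul_const _
  refine h2.congr_deriv ?_
  have h3 : ∑ u', ∑ v', (∏ k, (1 : Matrix (Fin r₀) (Fin r₀) ℂ) (u k) (u' k)) *
      (∑ l, (∏ i ∈ Finset.univ.erase l, (1 : Matrix (Fin n) (Fin n) ℂ) (v i) (v' i)) * Y (τ l) (v l) (v' l)) * f u' v' =
      ∑ v', (∑ l, (∏ i ∈ Finset.univ.erase l, (1 : Matrix (Fin n) (Fin n) ℂ) (v i) (v' i)) * Y (τ l) (v l) (v' l)) *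
        f u v' := by
    rw [Finset.sum_eq_single u]
    · simp only [prod_one, if_true, one_mul]
    · intro u' _ hu'
      refine Finset.sum_eq_zero fun v' _ => ?_
      rw [prod_one, if_neg hu', zero_mul, zero_mul]
    · intro h
      exact absurd (Finset.mem_univ _) h
  rw [h3, act_apply]
  have h4 : ∑ k, ∑ a, (0 : Matrix (Fin r₀) (Fin r₀) ℂ) (u k) a * f (Function.update u k a) v = 0 :=
    Finset.sum_eq_zero fun k _ => Finset.sum_eq_zero fun a _ => by rw [Matrix.zero_apply, zero_mul]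
  rw [h4, zero_add]
  simp only [Finset.sum_mul]
  rw [Finset.sum_comm]
  refine Finset.sum_congr rfl fun l _ => ?_
  have h5 : ∀ v' : Fin d → Fin n, (∏ i ∈ Finset.univ.erase l, (1 : Matrix (Fin n) (Fin n) ℂ) (v i) (v' i)) =
      if v' = Function.update v l (v' l) then 1 else 0 := by
    intro v'
    split_ifs with h
    · refine Finset.prod_eq_one fun i hi => ?_
      have h6 := congrFun h i
      rw [Function.update_of_ne (Finset.ne_of_mem_erase hi)] at h6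
      rw [h6, Matrix.one_apply_eq]
    · obtain ⟨i, hi⟩ := Function.ne_iff.1 h
      have hil : i ≠ l := by
        rintro rfl
        rw [Function.update_self] at hi
        exact hi rfl
      rw [Function.update_of_ne hil] at hi
      exact Finset.prod_eq_zero (Finset.mem_erase.2 ⟨hil, Finset.mem_univ i⟩) (Matrix.one_apply_ne hi.symm)
  simp only [h5]
  symm
  refine Finset.sum_of_injOn (fun a => Function.update v l a) ?_ (fun _ _ => Finset.mem_coe.2 (Finset.mem_univ _)) ?_ ?_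
  · intro a _ b _ hab
    have h6 := congrFun hab l
    simp only [Function.update_self] at h6
    exact h6
  · intro v' _ hv'
    rw [if_neg, zero_mul, zero_mul]
    intro h6
    exact hv' ⟨v' l, Finset.mem_coe.2 (Finset.mem_univ _), h6.symm⟩
  · intro a _
    rw [Function.update_self, if_pos rfl, one_mul]

/-- **a tensor line which is stable under one-parameter groups is stable under the Lie algebra** -/
theorem line_act {τ : Fin d → Fin N} {Y : Fin N → Matrix (Fin n) (Fin n) ℂ} {f : Ten ℂ d₀ d r₀ n}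
    (h : ∀ s : ℂ, ∃ a : ℂ, pw τ 1 (fun j => NormedSpace.exp (s • Y j)) f = a • f) : ∃ c : ℂ, act τ 0 Y f = c • f := by
  by_cases hf : f = 0
  · refine ⟨0, ?_⟩
    rw [hf, map_zero, smul_zero]
  obtain ⟨u₀, v₀, h₀⟩ : ∃ u v, f u v ≠ 0 := by
    by_contra hcon
    push Not at hcon
    exact hf (funext fun u => funext fun v => hcon u v)
  refine ⟨act τ 0 Y f u₀ v₀ / f u₀ v₀, ?_⟩
  funext u v
  have h1 : HasDerivAt (fun s : ℂ => pw τ 1 (fun j => NormedSpace.exp (s • Y j)) f u v * f u₀ v₀ -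
      pw τ 1 (fun j => NormedSpace.exp (s • Y j)) f u₀ v₀ * f u v)
      (act τ 0 Y f u v * f u₀ v₀ - act τ 0 Y f u₀ v₀ * f u v) 0 :=
    ((pw_HD τ Y f u v).mul_const _).sub ((pw_HD τ Y f u₀ v₀).mul_const _)
  have h2 : (fun s : ℂ => pw τ 1 (fun j => NormedSpace.exp (s • Y j)) f u v * f u₀ v₀ -
      pw τ 1 (fun j => NormedSpace.exp (s • Y j)) f u₀ v₀ * f u v) = fun _ => 0 := by
    funext s
    obtain ⟨a, ha⟩ := h s
    rw [ha]
    show a * f u v * f u₀ v₀ - a * f u₀ v₀ * f u v = 0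
    ring
  rw [h2] at h1
  have h3 := h1.unique (hasDerivAt_const (0 : ℂ) (0 : ℂ))
  show _ = act τ 0 Y f u₀ v₀ / f u₀ v₀ * f u v
  rw [div_mul_eq_mul_div, eq_div_iff h₀]
  linear_combination h3

end der

end Pool.Agent.Helper880_DB
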