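import Pool.Agent.Helper880_DB.Pw

/-!
# De Rham-Betti tensors: the line is killed, descent to products
-/

set_option autoImplicit false
set_option linter.unusedSectionVars false
set_option linter.unusedVariables false

open Matrix Module

namespace Pool.Agent.Helper880_DB

open Pool.Agent.Helper880_R3 (Ix Tot Tot_mul Tot_inj Tot_unit ib ib_apply IsLie CF Zm)
open Pool.Agent.Helper880_HC
open Pool.Agent.Helper880_LF (spS mem_spS)

variable {n N r₀ d₀ d : ℕ}

/-- conjugation -/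
noncomputable def cj (C : Matrix (Fin n) (Fin n) ℂ) : Matrix (Fin n) (Fin n) ℂ →ₗ[ℂ] Matrix (Fin n) (Fin n) ℂ where
  toFun X := C * X * C⁻¹
  map_add' X Y := by rw [Matrix.mul_add, Matrix.add_mul]
  map_smul' c X := by rw [Matrix.mul_smul, Matrix.smul_mul, RingHom.id_apply]

theorem cj_apply (C X : Matrix (Fin n) (Fin n) ℂ) : cj C X = C * X * C⁻¹ := rfl

theorem cj_br {C : Matrix (Fin n) (Fin n) ℂ} (hC : IsUnit C.det) (X Y : Matrix (Fin n) (Fin n) ℂ) :
    cj C (X * Y - Y * X) = cj C X * cj C Y - cj C Y * cj C X := by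
  rw [map_sub, cj_apply, cj_apply, cj_apply, cj_apply]
  have h1 : ∀ X Y : Matrix (Fin n) (Fin n) ℂ, C * X * C⁻¹ * (C * Y * C⁻¹) = C * (X * Y) * C⁻¹ := by
    intro X Y
    rw [Matrix.mul_assoc (C * X), ← Matrix.mul_assoc C⁻¹, ← Matrix.mul_assoc C⁻¹, nonsing_inv_mul _ hC, Matrix.one_mul,
      Matrix.mul_assoc C X, ← Matrix.mul_assoc X, Matrix.mul_assoc C]
  rw [h1, h1]

/-- a Lie algebra without central quotients which stabilises a line kills it -/
theorem kill_cf {τ : Fin d → Fin N} {f : Ten ℂ d₀ d r₀ n} {j : Fin N} {C : Matrix (Fin n) (Fin n) ℂ} (hC : IsUnit C.det)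
    {𝔤 : Submodule ℂ (Matrix (Fin n) (Fin n) ℂ)} (hL : IsLie 𝔤) (hq : CF 𝔤)
    (h : ∀ X ∈ 𝔤, ib j (cj C X) ∈ hf τ f) : ∀ X ∈ 𝔤, one τ f j (cj C X) = 0 := by
  set I : Submodule ℂ (Matrix (Fin n) (Fin n) ℂ) := 𝔤 ⊓ LinearMap.ker ((one τ f j).comp (cj C)) with hI
  have h1 : ∀ x ∈ 𝔤, ∀ y ∈ 𝔤, x * y - y * x ∈ I := by
    intro x hx y hy
    refine ⟨hL x hx y hy, ?_⟩
    show one τ f j (cj C (x * y - y * x)) = 0
    rw [cj_br hC]
    exact one_br (h x hx) (h y hy)
  intro X hX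
  exact (hq I inf_le_left (fun x hx y hy => h1 x hx y hy.1) X hX fun y hy => h1 X hX y hy).2

/-- **the tensor is killed** -/
theorem killed {τ : Fin d → Fin N} {f : Ten ℚ d₀ d r₀ n} {K : Subfield ℂ} {C₀ : Matrix (Fin r₀) (Fin r₀) ℂ}
    {C : Matrix (Fin n) (Fin n) ℂ} (hC : IsUnit C.det) {P : Fin N → Matrix (Fin n) (Fin n) ℂ}
    (hu : IsUnit (Tot C₀ P)) {𝔤 : Submodule ℂ (Matrix (Fin n) (Fin n) ℂ)} (hL : IsLie 𝔤) (hq : CF 𝔤)
    (hst : ∀ S : Set (Matrix (Ix r₀ n N) (Ix r₀ n N) ℂ), Pool.Agent.Y123.ST.SubT K S → Tot C₀ P ∈ S →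
      ∀ Y : Fin N → Matrix (Fin n) (Fin n) ℂ, (∀ j, Y j ∈ 𝔤) → ∀ x ∈ S,
        Zm (fun j => NormedSpace.exp (C * Y j * C⁻¹)) * x ∈ S) {c : ℂ} (hc : c ≠ 0)
    (hf : ∀ u v, c * pw τ C₀⁻¹ (fun j => (P j)⁻¹) (tC f) u v ∈ K) (j : Fin N) :
    ∀ X ∈ 𝔤, one τ (tC f) j (cj C X) = 0 := by
  obtain ⟨hu0, hu1⟩ := Tot_unit hu
  by_cases hf0 : f = 0
  · intro X hX
    have h1 : tC f = 0 := by
      rw [hf0]
      funext u v
      exact Rat.cast_zero
    rw [h1, one_apply', map_zero]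
  refine kill_cf hC hL hq fun X hX => ?_
  set k : (Fin d₀ → Fin r₀) → (Fin d → Fin n) → K := fun u v => ⟨_, hf u v⟩ with hk
  have hkc : (fun u v => (k u v : ℂ) : Ten ℂ d₀ d r₀ n) = c • pw τ C₀⁻¹ (fun j => (P j)⁻¹) (tC f) := rfl
  have hpw : pw τ C₀ P (fun u v => (k u v : ℂ)) = c • tC f := by
    rw [hkc, pw_smul, ← pw_mul, mul_nonsing_inv _ ((Matrix.isUnit_iff_isUnit_det _).1 hu0)]
    have h1 : (fun j => P j * (P j)⁻¹) = fun _ => (1 : Matrix (Fin n) (Fin n) ℂ) := by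
      funext i
      exact mul_nonsing_inv _ ((Matrix.isUnit_iff_isUnit_det _).1 (hu1 i))
    rw [h1, pw_one]
  have hk0 : k ≠ 0 := by
    intro h
    have h1 : (fun u v => (k u v : ℂ) : Ten ℂ d₀ d r₀ n) = (0 : ℂ) • (0 : Ten ℂ d₀ d r₀ n) := by
      rw [h, zero_smul]
      rfl
    rw [h1, pw_smul, zero_smul] at hpw
    apply hf0
    funext u v
    have h2 := congrFun (congrFun hpw u) v
    have h3 : (f u v : ℂ) = 0 := by
      rcases mul_eq_zero.1 (Eq.symm h2 : c * (f u v : ℂ) = 0) with h | h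
      · exact absurd h hc
      · exact h
    exact Rat.cast_injective (α := ℂ) (h3.trans Rat.cast_zero.symm)
  have hS := TT_sub (N := N) (τ := τ) (k := k) hf0 hk0
  have hmem : Tot C₀ P ∈ TT (N := N) τ (fun u v => (k u v : ℂ)) (tC f) := ⟨C₀, P, rfl, hu, c, hpw⟩
  have h1 : ∀ s : ℂ, ∃ a : ℂ, pw τ 1 (fun i => NormedSpace.exp (s • (Pi.single j (cj C X) : Fin N → _) i)) (tC f) =
      a • tC f := by
    intro s
    have h2 := hst _ hS hmem (Pi.single j (s • X)) (fun i => by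
      by_cases hi : i = j
      · subst hi
        rw [Pi.single_eq_same]
        exact 𝔤.smul_mem _ hX
      · rw [Pi.single_eq_of_ne hi]
        exact 𝔤.zero_mem) _ hmem
    have h3 : (fun i => NormedSpace.exp (C * (Pi.single j (s • X) : Fin N → Matrix (Fin n) (Fin n) ℂ) i * C⁻¹)) =
        fun i => NormedSpace.exp (s • (Pi.single j (cj C X) : Fin N → Matrix (Fin n) (Fin n) ℂ) i) := by
      funext i
      congr 1
      by_cases hi : i = j
      · subst hi
        rw [Pi.single_eq_same, Pi.single_eq_same, cj_apply, Matrix.mul_smul, Matrix.smul_mul]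
      · rw [Pi.single_eq_of_ne hi, Pi.single_eq_of_ne hi, Matrix.mul_zero, Matrix.zero_mul, smul_zero]
    rw [h3] at h2
    have h4 : Zm (r₀ := r₀) (fun i => NormedSpace.exp (s • (Pi.single j (cj C X) : Fin N → Matrix (Fin n) (Fin n) ℂ) i)) *
        Tot C₀ P = Tot (1 * C₀) (fun i => NormedSpace.exp (s • (Pi.single j (cj C X) : Fin N → _) i) * P i) := by
      rw [← Tot_mul]
      rfl
    rw [h4] at h2
    obtain ⟨x, Y, he, -, a, ha⟩ := h2
    obtain ⟨h5, h6⟩ := Tot_inj he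
    rw [← h5, ← h6, pw_mul, hpw, pw_smul] at ha
    refine ⟨c⁻¹ * a, ?_⟩
    rw [mul_smul, ← ha, smul_smul, inv_mul_cancel₀ hc, one_smul]
  obtain ⟨a, ha⟩ := line_act h1
  exact ⟨0, Pi.single j (cj C X), a, rfl, ha⟩

section descent

/-- linear functionals over `K` -/
theorem descent {K : Subfield ℂ} {ι V : Type} [Fintype ι] [DecidableEq ι] [Fintype V] [DecidableEq V] {v : ι → V → ℂ}
    (hv : ∀ e z, v e z ∈ K) (hli : ∀ a : ι → ℂ, (∀ z, ∑ e, a e * v e z = 0) → a = 0) :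
    ∃ Λ : ι → V → ℂ, (∀ e z, Λ e z ∈ K) ∧ ∀ x : ι → ℂ, ∀ e, ∑ z, Λ e z * (∑ e', x e' * v e' z) = x e := by
  set v' : ι → V → K := fun e z => ⟨v e z, hv e z⟩ with hv'
  set Φ : (ι → K) →ₗ[K] (V → K) := Fintype.linearCombination K v' with hΦ
  have hΦa : ∀ x z, Φ x z = ∑ e, x e * v' e z := by
    intro x z
    rw [hΦ, Fintype.linearCombination_apply, Finset.sum_apply]
    rfl
  have hinj : LinearMap.ker Φ = ⊥ := by
    rw [LinearMap.ker_eq_bot']
    intro x hx
    have h1 := hli (fun e => (x e : ℂ)) fun z => by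
      have h2 := congrArg (fun q : K => (q : ℂ)) ((hΦa x z).symm.trans (congrFun hx z))
      simpa using h2
    funext e
    exact Subtype.ext (congrFun h1 e)
  obtain ⟨Ψ, hΨ⟩ := LinearMap.exists_leftInverse_of_injective Φ hinj
  refine ⟨fun e z => (Ψ (Pi.single z 1) e : ℂ), fun e z => (Ψ (Pi.single z 1) e).2, fun x e => ?_⟩
  have h1 : ∀ e', ∑ z, (Ψ (Pi.single z 1) e : ℂ) * v e' z = if e = e' then 1 else 0 := by
    intro e'
    have h2 := congrFun (congrArg (fun T : (ι → K) →ₗ[K] (ι → K) => T (Pi.single e' 1)) hΨ) e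
    have h3 : Φ (Pi.single e' 1) = v' e' := by
      funext z
      rw [hΦa, Finset.sum_eq_single e']
      · rw [Pi.single_eq_same, one_mul]
      · intro b _ hb
        rw [Pi.single_eq_of_ne hb, zero_mul]
      · intro h
        exact absurd (Finset.mem_univ _) h
    have h4 : Ψ (v' e') e = ∑ z, v' e' z * Ψ (Pi.single z 1) e := by
      have h5 : v' e' = ∑ z, v' e' z • (Pi.single z 1 : V → K) := by
        funext z
        rw [Finset.sum_apply, Finset.sum_eq_single z]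
        · rw [Pi.smul_apply, Pi.single_eq_same, smul_eq_mul, mul_one]
        · intro b _ hb
          rw [Pi.smul_apply, Pi.single_eq_of_ne hb.symm, smul_zero]
        · intro h
          exact absurd (Finset.mem_univ _) h
      conv_lhs => rw [h5]
      rw [map_sum, Finset.sum_apply]
      exact Finset.sum_congr rfl fun z _ => by rw [map_smul, Pi.smul_apply, smul_eq_mul]
    have h6 : Ψ (v' e') e = (Pi.single e' 1 : ι → K) e := by
      rw [← h3]
      exact h2
    rw [h4, Pi.single_apply] at h6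
    have h7 := congrArg (fun q : K => (q : ℂ)) h6
    simp only [AddSubmonoidClass.coe_finsetSum, MulMemClass.coe_mul] at h7
    have h8 : ((if e = e' then 1 else 0 : K) : ℂ) = if e = e' then 1 else 0 := by
      split_ifs <;> rfl
    rw [h8] at h7
    rw [← h7]
    exact Finset.sum_congr rfl fun z _ => mul_comm _ _
  calc ∑ z, (Ψ (Pi.single z 1) e : ℂ) * (∑ e', x e' * v e' z)
      = ∑ e', x e' * ∑ z, (Ψ (Pi.single z 1) e : ℂ) * v e' z := by
        simp only [Finset.mul_sum]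
        rw [Finset.sum_comm]
        exact Finset.sum_congr rfl fun _ _ => Finset.sum_congr rfl fun _ _ => by ring
    _ = x e := by
        simp only [h1, mul_ite, mul_one, mul_zero, Finset.sum_ite_eq, Finset.mem_univ, if_true]

end descent

end Pool.Agent.Helper880_DB
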