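import Pool.Agent.Helper880_DB.Des

/-!
# De Rham-Betti tensors are combinations of products
-/

set_option autoImplicit false
set_option linter.unusedSectionVars false
set_option linter.unusedVariables false

open Matrix Module

namespace Pool.Agent.Helper880_DB

open Pool.Agent.Helper880_R3 (Ix Tot Tot_mul Tot_inj Tot_unit ib ib_apply IsLie CF Zm)
open Pool.Agent.Helper880_HC
open Pool.Agent.Helper880_LF (spS mem_spS)

variable {n N r₀ d₀ d : ℕ}

/-- the equivalence which is given by a perfect matching -/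
def pe {m : ℕ} (e : Fin m × Fin 2 ≃ Fin d) : (Fin m → Fin n × Fin n) ≃ (Fin d → Fin n) where
  toFun p := fun l => if (e.symm l).2 = 0 then (p (e.symm l).1).1 else (p (e.symm l).1).2
  invFun v := fun i => (v (e (i, 0)), v (e (i, 1)))
  left_inv p := by
    funext i
    simp
  right_inv v := by
    funext l
    have h1 : l = e ((e.symm l).1, (e.symm l).2) := by simp
    rcases Fin.exists_fin_two.1 ⟨(e.symm l).2, rfl⟩ with h | h
    · simp only
      rw [if_pos h]
      conv_rhs => rw [h1, h]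
    · have h2 : (e.symm l).2 ≠ 0 := by rw [h]; exact one_ne_zero
      simp only
      rw [if_neg h2]
      conv_rhs => rw [h1, h]

theorem pe_symm_apply {m : ℕ} (e : Fin m × Fin 2 ≃ Fin d) (v : Fin d → Fin n) (i : Fin m) :
    (pe e).symm v i = (v (e (i, 0)), v (e (i, 1))) := rfl

theorem prod_pairs {m : ℕ} (e : Fin m × Fin 2 ≃ Fin d) (F : Fin d → ℂ) :
    ∏ l, F l = ∏ i : Fin m, F (e (i, 0)) * F (e (i, 1)) := by
  rw [← e.prod_comp, Fintype.prod_prod_type]
  exact Finset.prod_congr rfl fun i _ => Fin.prod_univ_two _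

/-- the tensor power on a product of forms -/
theorem pow_mt {m : ℕ} (e : Fin m × Fin 2 ≃ Fin d) (A : Fin d → Matrix (Fin n) (Fin n) ℂ) (B : Matrix (Fin n) (Fin n) ℂ)
    (v' : Fin d → Fin n) : ∑ v : Fin d → Fin n, (∏ l, A l (v' l) (v l)) * ∏ i, B (v (e (i, 0))) (v (e (i, 1))) =
      ∏ i, (A (e (i, 0)) * B * (A (e (i, 1)))ᵀ) (v' (e (i, 0))) (v' (e (i, 1))) := by
  have h1 : ∀ i : Fin m, (A (e (i, 0)) * B * (A (e (i, 1)))ᵀ) (v' (e (i, 0))) (v' (e (i, 1))) =
      ∑ p : Fin n × Fin n, A (e (i, 0)) (v' (e (i, 0))) p.1 * A (e (i, 1)) (v' (e (i, 1))) p.2 * B p.1 p.2 := by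
    intro i
    rw [Fintype.sum_prod_type, Matrix.mul_apply]
    simp only [Matrix.mul_apply, Matrix.transpose_apply, Finset.sum_mul]
    rw [Finset.sum_comm]
    exact Finset.sum_congr rfl fun _ _ => Finset.sum_congr rfl fun _ _ => by ring
  simp only [h1]
  rw [Finset.prod_univ_sum, Fintype.piFinset_univ, ← (pe e).symm.sum_comp]
  refine Finset.sum_congr rfl fun v _ => ?_
  rw [prod_pairs e, ← Finset.prod_mul_distrib]
  exact Finset.prod_congr rfl fun i _ => rfl

theorem pw_prod (τ : Fin d → Fin N) (x : Matrix (Fin r₀) (Fin r₀) ℂ) (X : Fin N → Matrix (Fin n) (Fin n) ℂ)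
    (g : (Fin d₀ → Fin r₀) → ℂ) (h : (Fin d → Fin n) → ℂ) (u : Fin d₀ → Fin r₀) (v : Fin d → Fin n) :
    pw τ x X (fun u v => g u * h v) u v = (∑ u', (∏ k, x (u k) (u' k)) * g u') *
      ∑ v', (∏ l, X (τ l) (v l) (v' l)) * h v' := by
  unfold pw
  rw [Finset.sum_mul_sum]
  exact Finset.sum_congr rfl fun _ _ => Finset.sum_congr rfl fun _ _ => by ring

/-- **de Rham-Betti tensors are combinations of products** -/
theorem drb_span {K : Subfield ℂ} {τ : Fin d → Fin N} {f : Ten ℚ d₀ d r₀ n} {J : Matrix (Fin n) (Fin n) ℚ} {ε : ℤ}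
    (hε : ε = 1 ∨ ε = -1) (hJ : Jᵀ = (ε : ℚ) • J) (hdet : IsUnit J.det)
    (h : ∀ j, ∀ X ∈ spS (mC J), one τ (tC f) j X = 0) (hcard : ε = 1 → ∀ j, Fintype.card {l // τ l = j} < n)
    {C₀ : Matrix (Fin r₀) (Fin r₀) ℂ} {P Q : Fin N → Matrix (Fin n) (Fin n) ℂ} (hP : ∀ j, IsUnit (P j).det)
    (hQ : ∀ j a b, Q j a b ∈ K) {lam : ℂ} (hlam : lam ≠ 0) (hPQ : ∀ j, P j * Q j * (P j)ᵀ = lam • mC J⁻¹) {c : ℂ}
    (hf : ∀ u v, c * pw τ C₀⁻¹ (fun j => (P j)⁻¹) (tC f) u v ∈ K) :
    f ∈ Submodule.span ℚ {F : Ten ℚ d₀ d r₀ n | ∃ (m : ℕ) (e : Fin m × Fin 2 ≃ Fin d) (g : (Fin d₀ → Fin r₀) → ℚ),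
      (∀ l, τ (e (l, 0)) = τ (e (l, 1))) ∧
      (∀ u : Fin d₀ → Fin r₀, c / lam ^ m * (∑ u' : Fin d₀ → Fin r₀, (∏ k, C₀⁻¹ (u k) (u' k)) * (g u' : ℂ)) ∈ K) ∧ F = fun u v => g u * mt J e v} := by
  classical
  set S₀ : Set ((Fin d → Fin n) → ℚ) := {g | ∃ (m : ℕ) (e : Fin m × Fin 2 ≃ Fin d),
    (∀ l, τ (e (l, 0)) = τ (e (l, 1))) ∧ g = mt J e} with hS₀
  obtain ⟨b, hbS, hbsp, hbli⟩ := exists_linearIndependent ℚ S₀
  have hfin : Finite b := (hbli.setFinite : Set.Finite b)
  let _ : Fintype b := Fintype.ofFinite b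
  have hch : ∀ x : b, ∃ (m : ℕ) (e : Fin m × Fin 2 ≃ Fin d), (∀ l, τ (e (l, 0)) = τ (e (l, 1))) ∧
      (x : (Fin d → Fin n) → ℚ) = mt J e := fun x => hbS x.2
  choose m e he hx using hch
  have hm : ∀ x, m x = d / 2 := by
    intro x
    have h1 := Fintype.card_congr (e x)
    rw [Fintype.card_prod, Fintype.card_fin, Fintype.card_fin, Fintype.card_fin] at h1
    omega
  -- the rational coefficients
  set Φ : (b → ℚ) →ₗ[ℚ] ((Fin d → Fin n) → ℚ) := Fintype.linearCombination ℚ (fun x : b => (x : (Fin d → Fin n) → ℚ))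
    with hΦ
  have hker : LinearMap.ker Φ = ⊥ := by
    rw [LinearMap.ker_eq_bot']
    intro a ha
    rw [hΦ, Fintype.linearCombination_apply] at ha
    exact funext (Fintype.linearIndependent_iff.1 hbli a ha)
  obtain ⟨Ψ, hΨ⟩ := LinearMap.exists_leftInverse_of_injective Φ hker
  have hrange : ∀ u, f u ∈ LinearMap.range Φ := by
    intro u
    have h1 := ff hε hJ hdet h hcard u
    have h2 : Submodule.span ℚ S₀ ≤ LinearMap.range Φ := by
      rw [← hbsp, Submodule.span_le]
      intro x hxb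
      refine ⟨Pi.single ⟨x, hxb⟩ 1, ?_⟩
      rw [hΦ, Fintype.linearCombination_apply, Finset.sum_eq_single ⟨x, hxb⟩]
      · rw [Pi.single_eq_same, one_smul]
      · intro y _ hy
        rw [Pi.single_eq_of_ne hy, zero_smul]
      · intro h'
        exact absurd (Finset.mem_univ _) h'
    exact h2 h1
  set g : b → (Fin d₀ → Fin r₀) → ℚ := fun x u => Ψ (f u) x with hg
  have hfu : ∀ u, f u = ∑ x : b, g x u • mt J (e x) := by
    intro u
    obtain ⟨a, ha⟩ := hrange u
    have h1 : Ψ (f u) = a := by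
      rw [← ha]
      exact congrArg (fun T : (b → ℚ) →ₗ[ℚ] (b → ℚ) => T a) hΨ
    have h2 : f u = ∑ x : b, a x • (x : (Fin d → Fin n) → ℚ) := by
      rw [← ha, hΦ, Fintype.linearCombination_apply]
    rw [h2]
    refine Finset.sum_congr rfl fun x _ => ?_
    show a x • _ = Ψ (f u) x • _
    rw [← hx x, h1]
  have hf' : f = ∑ x : b, (fun u v => g x u * mt J (e x) v : Ten ℚ d₀ d r₀ n) := by
    funext u v
    rw [hfu, Finset.sum_apply, Finset.sum_apply, Finset.sum_apply]
    rfl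
  rw [hf']
  refine Submodule.sum_mem _ fun x _ => Submodule.subset_span ⟨m x, e x, g x, he x, fun u => ?_, rfl⟩
  -- the de Rham side
  set w : b → (Fin d → Fin n) → ℂ := fun x v' => ∏ i, Q (τ (e x (i, 0))) (v' (e x (i, 0))) (v' (e x (i, 1))) with hw
  have hinv : ∀ j, (P j)⁻¹ * mC J⁻¹ * ((P j)⁻¹)ᵀ = lam⁻¹ • Q j := by
    intro j
    have h1 : mC J⁻¹ = lam⁻¹ • (P j * Q j * (P j)ᵀ) := by rw [hPQ, smul_smul, inv_mul_cancel₀ hlam, one_smul]
    rw [h1, Matrix.mul_smul, Matrix.smul_mul]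
    congr 1
    rw [transpose_nonsing_inv, ← Matrix.mul_assoc, ← Matrix.mul_assoc, nonsing_inv_mul _ (hP j), Matrix.one_mul,
      Matrix.mul_assoc, mul_nonsing_inv _ (by rw [det_transpose]; exact hP j), Matrix.mul_one]
  have hmtC : ∀ (x : b) (v : Fin d → Fin n), ((mt J (e x) v : ℚ) : ℂ) = ∏ i, mC J⁻¹ (v (e x (i, 0))) (v (e x (i, 1))) := by
    intro x v
    unfold Pool.Agent.Helper880_HC.mt
    rw [Rat.cast_prod]
    rfl
  have hwt : ∀ (x : b) (v' : Fin d → Fin n), ∑ v, (∏ l, (P (τ l))⁻¹ (v' l) (v l)) * ((mt J (e x) v : ℚ) : ℂ) =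
      (lam⁻¹) ^ (m x) * w x v' := by
    intro x v'
    simp only [hmtC]
    rw [pow_mt (e x) (fun l => (P (τ l))⁻¹)]
    have h1 : ∀ i, ((P (τ (e x (i, 0))))⁻¹ * mC J⁻¹ * ((P (τ (e x (i, 1))))⁻¹)ᵀ) (v' (e x (i, 0))) (v' (e x (i, 1))) =
        lam⁻¹ * Q (τ (e x (i, 0))) (v' (e x (i, 0))) (v' (e x (i, 1))) := by
      intro i
      rw [← he x i, hinv, Matrix.smul_apply, smul_eq_mul]
    simp only [h1]
    rw [Finset.prod_mul_distrib, Finset.prod_const, Finset.card_univ, Fintype.card_fin]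
  have hwK : ∀ x v', w x v' ∈ K := fun x v' => K.prod_mem fun i _ => hQ _ _ _
  have hwli : ∀ a : b → ℂ, (∀ v', ∑ x, a x * w x v' = 0) → a = 0 := by
    intro a ha
    -- the tensor power of `P` gives a relation between rational vectors
    have h1 : ∀ (x : b) (v : Fin d → Fin n), ∑ v', (∏ l, P (τ l) (v l) (v' l)) * w x v' =
        lam ^ (m x) * ((mt J (e x) v : ℚ) : ℂ) := by
      intro x v
      rw [hw, hmtC]
      have h3 : ∑ v' : Fin d → Fin n, (∏ l, P (τ l) (v l) (v' l)) * ∏ i, Q (τ (e x (i, 0))) (v' (e x (i, 0))) (v' (e x (i, 1))) =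
          ∏ i, (P (τ (e x (i, 0))) * Q (τ (e x (i, 0))) * (P (τ (e x (i, 1))))ᵀ) (v (e x (i, 0))) (v (e x (i, 1))) := by
        have h4 : ∀ i : Fin (m x), (P (τ (e x (i, 0))) * Q (τ (e x (i, 0))) * (P (τ (e x (i, 1))))ᵀ) (v (e x (i, 0)))
            (v (e x (i, 1))) = ∑ p : Fin n × Fin n, P (τ (e x (i, 0))) (v (e x (i, 0))) p.1 *
              P (τ (e x (i, 1))) (v (e x (i, 1))) p.2 * Q (τ (e x (i, 0))) p.1 p.2 := by
          intro i
          rw [Fintype.sum_prod_type, Matrix.mul_apply]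
          simp only [Matrix.mul_apply, Matrix.transpose_apply, Finset.sum_mul]
          rw [Finset.sum_comm]
          exact Finset.sum_congr rfl fun _ _ => Finset.sum_congr rfl fun _ _ => by ring
        simp only [h4]
        rw [Finset.prod_univ_sum, Fintype.piFinset_univ, ← (pe (e x)).symm.sum_comp]
        refine Finset.sum_congr rfl fun v' _ => ?_
        rw [prod_pairs (e x), ← Finset.prod_mul_distrib]
        exact Finset.prod_congr rfl fun i _ => rfl
      refine h3.trans ?_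
      have h4 : ∀ i, (P (τ (e x (i, 0))) * Q (τ (e x (i, 0))) * (P (τ (e x (i, 1))))ᵀ) (v (e x (i, 0))) (v (e x (i, 1))) =
          lam * mC J⁻¹ (v (e x (i, 0))) (v (e x (i, 1))) := by
        intro i
        rw [← he x i, hPQ, Matrix.smul_apply, smul_eq_mul]
      simp only [h4]
      rw [Finset.prod_mul_distrib, Finset.prod_const, Finset.card_univ, Fintype.card_fin]
    have h2 : ∀ v, ∑ x, a x * ((mt J (e x) v : ℚ) : ℂ) = 0 := by
      intro v
      have h3 : lam ^ (d / 2) * ∑ x, a x * ((mt J (e x) v : ℚ) : ℂ) = 0 := by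
        calc lam ^ (d / 2) * ∑ x, a x * ((mt J (e x) v : ℚ) : ℂ)
            = ∑ x, a x * ∑ v', (∏ l, P (τ l) (v l) (v' l)) * w x v' := by
              rw [Finset.mul_sum]
              refine Finset.sum_congr rfl fun x _ => ?_
              have h5 : lam ^ (m x) = lam ^ (d / 2) := by rw [hm]
              rw [h1, h5]
              ring
          _ = ∑ v', (∏ l, P (τ l) (v l) (v' l)) * ∑ x, a x * w x v' := by
              simp only [Finset.mul_sum]
              rw [Finset.sum_comm]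
              exact Finset.sum_congr rfl fun _ _ => Finset.sum_congr rfl fun _ _ => by ring
          _ = 0 := Finset.sum_eq_zero fun v' _ => by rw [ha, mul_zero]
      exact (mul_eq_zero.1 h3).resolve_left (pow_ne_zero _ hlam)
    funext y
    have h3 : a y = ∑ v, ((Ψ (Pi.single v 1) y : ℚ) : ℂ) * ∑ x, a x * ((mt J (e x) v : ℚ) : ℂ) := by
      have h4 : ∀ x : b, ∑ v, ((Ψ (Pi.single v 1) y : ℚ) : ℂ) * ((mt J (e x) v : ℚ) : ℂ) = if x = y then 1 else 0 := by
        intro x
        have h5 : Ψ (mt J (e x)) y = ∑ v, mt J (e x) v * Ψ (Pi.single v 1) y := by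
          have h6 : mt J (e x) = ∑ v, mt J (e x) v • (Pi.single v 1 : (Fin d → Fin n) → ℚ) := by
            funext z
            rw [Finset.sum_apply, Finset.sum_eq_single z]
            · rw [Pi.smul_apply, Pi.single_eq_same, smul_eq_mul, mul_one]
            · intro b' _ hb
              rw [Pi.smul_apply, Pi.single_eq_of_ne hb.symm, smul_zero]
            · intro h
              exact absurd (Finset.mem_univ _) h
          conv_lhs => rw [h6]
          rw [map_sum, Finset.sum_apply]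
          exact Finset.sum_congr rfl fun z _ => by rw [map_smul, Pi.smul_apply, smul_eq_mul]
        have h6 : Ψ (mt J (e x)) y = if x = y then 1 else 0 := by
          have h7 := congrFun (congrArg (fun T : (b → ℚ) →ₗ[ℚ] (b → ℚ) => T (Pi.single x 1)) hΨ) y
          have h8 : Φ (Pi.single x 1) = mt J (e x) := by
            rw [← hx x, hΦ, Fintype.linearCombination_apply, Finset.sum_eq_single x]
            · rw [Pi.single_eq_same, one_smul]
            · intro y _ hy
              rw [Pi.single_eq_of_ne hy, zero_smul]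
            · intro h'
              exact absurd (Finset.mem_univ _) h'
          rw [← h8]
          refine h7.trans ?_
          show (Pi.single x 1 : b → ℚ) y = _
          rw [Pi.single_apply]
          simp only [eq_comm]
        rw [h5] at h6
        have h7 := congrArg (fun q : ℚ => (q : ℂ)) h6
        simp only [Rat.cast_sum, Rat.cast_mul] at h7
        rw [Finset.sum_congr rfl fun v _ => mul_comm _ _, h7]
        split_ifs
        · exact Rat.cast_one
        · exact Rat.cast_zero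
      calc a y = ∑ x, a x * ∑ v, ((Ψ (Pi.single v 1) y : ℚ) : ℂ) * ((mt J (e x) v : ℚ) : ℂ) := by
            simp only [h4, mul_ite, mul_one, mul_zero, Finset.sum_ite_eq', Finset.mem_univ, if_true]
        _ = _ := by
            simp only [Finset.mul_sum]
            rw [Finset.sum_comm]
            exact Finset.sum_congr rfl fun _ _ => Finset.sum_congr rfl fun _ _ => by ring
    rw [h3]
    exact Finset.sum_eq_zero fun v _ => by rw [h2, mul_zero]
  obtain ⟨Λ, hΛ, hΛx⟩ := descent hwK hwli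
  set G : b → (Fin d₀ → Fin r₀) → ℂ := fun x u => ∑ u', (∏ k, C₀⁻¹ (u k) (u' k)) * (g x u' : ℂ) with hG
  have hexp : ∀ u v', c * pw τ C₀⁻¹ (fun j => (P j)⁻¹) (tC f) u v' = ∑ x, (c / lam ^ (m x) * G x u) * w x v' := by
    intro u v'
    have h1 : tC f = ∑ x, (fun u v => (g x u : ℂ) * ((mt J (e x) v : ℚ) : ℂ) : Ten ℂ d₀ d r₀ n) := by
      funext u v
      show (f u v : ℂ) = _
      rw [hfu, Finset.sum_apply, Finset.sum_apply, Finset.sum_apply, Rat.cast_sum]
      exact Finset.sum_congr rfl fun x _ => Rat.cast_mul _ _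
    have h2 : pw τ C₀⁻¹ (fun j => (P j)⁻¹) (tC f) u v' = ∑ x, pw τ C₀⁻¹ (fun j => (P j)⁻¹)
        (fun u v => (g x u : ℂ) * ((mt J (e x) v : ℚ) : ℂ)) u v' := by
      rw [h1]
      unfold pw
      simp only [Finset.sum_apply, Finset.mul_sum]
      rw [Finset.sum_congr rfl fun u' _ => Finset.sum_comm, Finset.sum_comm]
    rw [h2, Finset.mul_sum]
    refine Finset.sum_congr rfl fun x _ => ?_
    rw [pw_prod, hwt]
    show c * (G x u * _) = _
    rw [inv_pow]
    ring
  have h1 := hΛx (fun x => c / lam ^ (m x) * G x u) x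
  rw [← h1]
  refine K.sum_mem fun v' _ => K.mul_mem (hΛ _ _) ?_
  rw [← hexp]
  exact hf u v'

/-- invariant tensors are combinations of products -/
theorem all_span {τ : Fin d → Fin N} {f : Ten ℚ d₀ d r₀ n} {J : Matrix (Fin n) (Fin n) ℚ} {ε : ℤ}
    (hε : ε = 1 ∨ ε = -1) (hJ : Jᵀ = (ε : ℚ) • J) (hdet : IsUnit J.det)
    (h : ∀ j, ∀ X ∈ spS (mC J), one τ (tC f) j X = 0) (hcard : ε = 1 → ∀ j, Fintype.card {l // τ l = j} < n) :
    f ∈ Submodule.span ℚ {F : Ten ℚ d₀ d r₀ n | ∃ (m : ℕ) (e : Fin m × Fin 2 ≃ Fin d) (g : (Fin d₀ → Fin r₀) → ℚ),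
      (∀ l, τ (e (l, 0)) = τ (e (l, 1))) ∧ True ∧ F = fun u v => g u * mt J e v} := by
  classical
  have h0 : f = ∑ u : Fin d₀ → Fin r₀, (fun u' v => (Pi.single u 1 : (Fin d₀ → Fin r₀) → ℚ) u' * f u v : Ten ℚ d₀ d r₀ n) := by
    funext u v
    rw [Finset.sum_apply, Finset.sum_apply, Finset.sum_eq_single u]
    · rw [Pi.single_eq_same, one_mul]
    · intro b _ hb
      rw [Pi.single_eq_of_ne hb.symm, zero_mul]
    · intro h
      exact absurd (Finset.mem_univ _) h
  rw [h0]
  refine Submodule.sum_mem _ fun u _ => ?_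
  have h1 := ff hε hJ hdet h hcard u
  generalize f u = y at h1 ⊢
  induction h1 using Submodule.span_induction with
  | mem x hx =>
    obtain ⟨m, e, he, rfl⟩ := hx
    exact Submodule.subset_span ⟨m, e, Pi.single u 1, he, trivial, rfl⟩
  | zero =>
    convert Submodule.zero_mem _ using 1
    funext u' v
    exact mul_zero _
  | add x y _ _ hx hy =>
    convert Submodule.add_mem _ hx hy using 1
    funext u' v
    exact mul_add _ _ _
  | smul c x _ hx =>
    convert Submodule.smul_mem _ c hx using 1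
    funext u' v
    show _ * (c * _) = c * (_ * _)
    ring

theorem Tot_isUnit {x : Matrix (Fin r₀) (Fin r₀) ℂ} {X : Fin N → Matrix (Fin n) (Fin n) ℂ} (h : IsUnit x)
    (h' : ∀ j, IsUnit (X j)) : IsUnit (Tot x X) := by
  rw [Matrix.isUnit_iff_isUnit_det]
  unfold Tot
  rw [Matrix.det_fromBlocks_zero₁₂, Matrix.det_blockDiagonal]
  exact ((Matrix.isUnit_iff_isUnit_det _).1 h).mul
    (IsUnit.prod_iff.2 fun j _ => (Matrix.isUnit_iff_isUnit_det _).1 (h' j))

end Pool.Agent.Helper880_DB
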